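import Mathlib
import Pool.Agent.Helper90.NoTwoMultiplesDefs

/-!
# Sets in which no element divides two others: the exact formula

Definitions for the exact formula `f n = ∑ G (n / a)`, the sum over the `a ≤ n` prime to 6.
-/

open Finset

namespace Pool.Agent.Helper90.NTM

/-- largest size of an admissible set of numbers `2 ^ i * 3 ^ j ≤ t` (for `t ≥ 1`) -/
def gg (t : ℕ) : ℕ :=
  Nat.log 3 t + 1 + (Nat.log 2 t + if 2 * 3 ^ Nat.log 3 t ≤ t then 1 else 0) / 2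

/-- the exceptional integers: with `3 ^ J ≤ t < 3 ^ (J + 1)` and `2 ^ I ≤ t < 2 ^ (I + 1)`,
`10/9 * 3 ^ J ≤ t < 4/3 * 3 ^ J`, `I` is even and `t < 5/4 * 2 ^ I` -/
def Bad (t : ℕ) : Prop :=
  10 * 3 ^ Nat.log 3 t ≤ 9 * t ∧ 3 * t < 4 * 3 ^ Nat.log 3 t ∧
    Nat.log 2 t % 2 = 0 ∧ 4 * t < 5 * 2 ^ Nat.log 2 t

instance : DecidablePred Bad := fun t => by unfold Bad; infer_instance

/-- the contribution of a layer -/
def G (t : ℕ) : ℕ := gg t - if Bad t then 1 else 0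

/-- a layer: exponents `(i, j)` with `2 ^ i * 3 ^ j ≤ t`, no element below two others -/
def Lay (t : ℕ) (B : Finset (ℕ × ℕ)) : Prop :=
  (∀ p ∈ B, 2 ^ p.1 * 3 ^ p.2 ≤ t) ∧
    ∀ p ∈ B, ∀ q ∈ B, ∀ r ∈ B, p ≠ q → p ≠ r → q ≠ r → ¬ (p ≤ q ∧ p ≤ r)

/-- the integers up to `n` prime to 6 -/
def Cop (n : ℕ) : Finset ℕ := (Icc 1 n).filter (fun a => Nat.Coprime 6 a)

/-- for `x = a * 2 ^ i * 3 ^ j` with `a` prime to 6 this is `Nat.log 2 (n / a) - i` -/
def E (n x : ℕ) : ℕ := Nat.log 2 (3 ^ padicValNat 3 x * n / x)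

/-- the first approximation of the extremal set -/
def Nom (n x : ℕ) : Prop :=
  (x ≤ n ∧ n < 2 * x ∧ E n x % 2 = 0) ∨ (2 * x ≤ n ∧ n < 4 * x) ∨
    (4 * x ≤ n ∧ n < 6 * x ∧ E n x % 2 = 1)

instance (n : ℕ) : DecidablePred (Nom n) := fun x => by unfold Nom; infer_instance

/-- the elements `x` of the first approximation for which `5 * x` is a second multiple -/
def K (n x : ℕ) : Prop :=
  5 * x ≤ n ∧ n < 6 * x ∧ E n x % 2 = 1 ∧
    4 * (3 ^ padicValNat 3 x * n) < 5 * 2 ^ E n x * x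

instance (n : ℕ) : DecidablePred (K n) := fun x => by unfold K; infer_instance

def K4 (n : ℕ) : Finset ℕ := (Icc 1 n).filter (fun x => K n x ∧ x % 4 = 0)
def K2 (n : ℕ) : Finset ℕ := (Icc 1 n).filter (fun x => K n x ∧ x % 4 = 2)
def K1 (n : ℕ) : Finset ℕ := (Icc 1 n).filter (fun x => K n x ∧ x % 2 = 1)

/-- removed elements -/
def Rem (n : ℕ) : Finset ℕ :=
  (K4 n).image (fun x => 5 * x) ∪ (K4 n).image (fun x => 5 * x / 2) ∪
    (K2 n).image (fun x => 5 * x) ∪ K1 n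

/-- added elements -/
def Add (n : ℕ) : Finset ℕ :=
  (K4 n).image (fun x => 5 * x / 4) ∪ (K4 n).image (fun x => 5 * x / 6) ∪
    (K1 n).image (fun x => 3 * x)

/-- the extremal set -/
def Ext (n : ℕ) : Finset ℕ := ((Icc 1 n).filter (Nom n) \ Rem n) ∪ Add n

end Pool.Agent.Helper90.NTM
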