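import Mathlib
import Pool.Agent.Helper90.NTM.Defs

/-!
# Basic facts about `E`
-/

open Finset

namespace Pool.Agent.Helper90.NTM

/-- `v x` is the exponent of 3 in `x` -/
local instance : Fact (Nat.Prime 3) := ⟨Nat.prime_three⟩

lemma v_mul_of_not_dvd {k x : ℕ} (hk : ¬ 3 ∣ k) (hx : 1 ≤ x) :
    padicValNat 3 (k * x) = padicValNat 3 x := by
  have hk0 : k ≠ 0 := by rintro rfl; exact hk (dvd_zero 3)
  rw [padicValNat.mul hk0 (by omega), padicValNat.eq_zero_of_not_dvd hk, zero_add]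

lemma v_three_mul {x : ℕ} (hx : 1 ≤ x) : padicValNat 3 (3 * x) = padicValNat 3 x + 1 := by
  rw [padicValNat.mul (by norm_num) (by omega), padicValNat.self (by norm_num), add_comm]

lemma le_pow_mul {n x : ℕ} (hx : 1 ≤ x) (hxn : x ≤ n) : x ≤ 3 ^ padicValNat 3 x * n :=
  hxn.trans (Nat.le_mul_of_pos_left n (by positivity))

lemma E_spec {n x : ℕ} (hx : 1 ≤ x) (hxn : x ≤ n) :
    2 ^ E n x * x ≤ 3 ^ padicValNat 3 x * n ∧ 3 ^ padicValNat 3 x * n < 2 ^ (E n x + 1) * x := by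
  have h1 := le_pow_mul hx hxn
  have h2 : 1 ≤ 3 ^ padicValNat 3 x * n / x := (Nat.one_le_div_iff (by omega)).mpr h1
  constructor
  · have h3 : 2 ^ E n x ≤ 3 ^ padicValNat 3 x * n / x := Nat.pow_log_le_self 2 (by omega)
    exact (Nat.le_div_iff_mul_le (by omega)).mp h3
  · have h3 : 3 ^ padicValNat 3 x * n / x < 2 ^ (E n x + 1) :=
      Nat.lt_pow_succ_log_self (by norm_num) _
    exact (Nat.div_lt_iff_lt_mul (by omega)).mp h3

lemma E_eq {n x e : ℕ} (hx : 1 ≤ x) (h1 : 2 ^ e * x ≤ 3 ^ padicValNat 3 x * n)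
    (h2 : 3 ^ padicValNat 3 x * n < 2 ^ (e + 1) * x) : E n x = e := by
  unfold E
  have h3 : 2 ^ e ≤ 3 ^ padicValNat 3 x * n / x := (Nat.le_div_iff_mul_le (by omega)).mpr h1
  have h4 : 3 ^ padicValNat 3 x * n / x < 2 ^ (e + 1) :=
    (Nat.div_lt_iff_lt_mul (by omega)).mpr h2
  exact (Nat.log_eq_iff (Or.inr ⟨by norm_num, by
    have := Nat.one_le_two_pow (n := e); omega⟩)).mpr ⟨h3, h4⟩

/-- doubling -/
lemma E_two_mul {n x : ℕ} (hx : 1 ≤ x) (h : 2 * x ≤ n) : E n x = E n (2 * x) + 1 := by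
  obtain ⟨h1, h2⟩ := E_spec (n := n) (x := 2 * x) (by omega) h
  rw [v_mul_of_not_dvd (by norm_num) hx] at h1 h2
  apply E_eq hx
  · calc 2 ^ (E n (2 * x) + 1) * x = 2 ^ E n (2 * x) * (2 * x) := by rw [pow_succ]; ring
      _ ≤ _ := h1
  · calc 3 ^ padicValNat 3 x * n < 2 ^ (E n (2 * x) + 1) * (2 * x) := h2
      _ = _ := by rw [pow_succ _ (E n (2 * x) + 1)]; ring

/-- tripling -/
lemma E_three_mul {n x : ℕ} (hx : 1 ≤ x) (h : 3 * x ≤ n) : E n (3 * x) = E n x := by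
  obtain ⟨h1, h2⟩ := E_spec (n := n) (x := x) hx (by omega)
  apply E_eq (by omega)
  · rw [v_three_mul hx, pow_succ]
    calc 2 ^ E n x * (3 * x) = 3 * (2 ^ E n x * x) := by ring
      _ ≤ 3 * (3 ^ padicValNat 3 x * n) := Nat.mul_le_mul_left 3 h1
      _ = _ := by ring
  · rw [v_three_mul hx, pow_succ]
    calc 3 ^ padicValNat 3 x * 3 * n = 3 * (3 ^ padicValNat 3 x * n) := by ring
      _ < 3 * (2 ^ (E n x + 1) * x) := by omega
      _ = _ := by ring

/-- multiplication by 5, first case -/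
lemma E_five_mul_lo {n x : ℕ} (hx : 1 ≤ x) (h : 5 * x ≤ n)
    (hlo : 4 * (3 ^ padicValNat 3 x * n) < 5 * 2 ^ E n x * x) : E n x = E n (5 * x) + 3 := by
  obtain ⟨h1, h2⟩ := E_spec (n := n) (x := x) hx (by omega)
  obtain ⟨h3, h4⟩ := E_spec (n := n) (x := 5 * x) (by omega) h
  rw [v_mul_of_not_dvd (by norm_num) hx] at h3 h4
  -- E n x ≥ 3
  have h5 : 3 ≤ E n x := by
    by_contra hc
    have h6 : 5 * x ≤ 3 ^ padicValNat 3 x * n :=
      h.trans (Nat.le_mul_of_pos_left n (by positivity))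
    have h7 : 5 * 2 ^ E n x * x ≤ 5 * 2 ^ 2 * x :=
      Nat.mul_le_mul_right x (Nat.mul_le_mul_left 5 (Nat.pow_le_pow_right (by norm_num) (by omega)))
    omega
  obtain ⟨e, he⟩ := Nat.exists_eq_add_of_le h5
  have h8 : E n (5 * x) = e := by
    apply E_eq (by omega)
    · rw [v_mul_of_not_dvd (by norm_num) hx]
      rw [he, pow_add] at h1
      calc 2 ^ e * (5 * x) ≤ 2 ^ 3 * 2 ^ e * x := by nlinarith [Nat.zero_le (2 ^ e * x)]
        _ ≤ _ := h1
    · rw [v_mul_of_not_dvd (by norm_num) hx]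
      rw [he, pow_add] at hlo
      have : 4 * (3 ^ padicValNat 3 x * n) < 4 * (2 ^ (e + 1) * (5 * x)) := by
        calc _ < _ := hlo
          _ = _ := by rw [pow_succ]; ring
      omega
  omega

/-- multiplication by 5, second case -/
lemma E_five_mul_hi {n x : ℕ} (hx : 1 ≤ x) (h : 5 * x ≤ n)
    (hhi : 5 * 2 ^ E n x * x ≤ 4 * (3 ^ padicValNat 3 x * n)) : E n x = E n (5 * x) + 2 := by
  obtain ⟨h1, h2⟩ := E_spec (n := n) (x := x) hx (by omega)
  have h5 : 2 ≤ E n x := by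
    by_contra hc
    have h6 : 5 * x ≤ 3 ^ padicValNat 3 x * n :=
      h.trans (Nat.le_mul_of_pos_left n (by positivity))
    have h7 : 2 ^ (E n x + 1) * x ≤ 2 ^ 2 * x :=
      Nat.mul_le_mul_right x (Nat.pow_le_pow_right (by norm_num) (by omega))
    omega
  obtain ⟨e, he⟩ := Nat.exists_eq_add_of_le h5
  have h8 : E n (5 * x) = e := by
    apply E_eq (by omega)
    · rw [v_mul_of_not_dvd (by norm_num) hx]
      rw [he, pow_add] at hhi
      have : 4 * (2 ^ e * (5 * x)) ≤ 4 * (3 ^ padicValNat 3 x * n) := by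
        calc _ = 5 * (2 ^ 2 * 2 ^ e) * x := by ring
          _ ≤ _ := hhi
      omega
    · rw [v_mul_of_not_dvd (by norm_num) hx]
      rw [he, show 2 + e + 1 = (e + 1) + 2 by ring, pow_add _ (e + 1)] at h2
      calc _ < _ := h2
        _ ≤ _ := by nlinarith [Nat.zero_le (2 ^ (e + 1) * x)]
  omega

/-- in a layer -/
lemma E_layer {n a i j : ℕ} (ha : Nat.Coprime 6 a) (ha1 : 1 ≤ a) (h : 2 ^ i * 3 ^ j * a ≤ n) :
    E n (2 ^ i * 3 ^ j * a) + i = Nat.log 2 (n / a) := by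
  have hv : padicValNat 3 (2 ^ i * 3 ^ j * a) = j := by
    have h3a : ¬ 3 ∣ a := fun hd => by
      have := Nat.dvd_gcd (show 3 ∣ 6 by norm_num) hd
      rw [Nat.coprime_iff_gcd_eq_one.mp ha] at this
      omega
    rw [padicValNat.mul (by positivity) (by omega), padicValNat.mul (by positivity) (by positivity),
      padicValNat.eq_zero_of_not_dvd h3a, padicValNat.prime_pow,
      padicValNat.eq_zero_of_not_dvd
        (fun hd => by have := Nat.Prime.dvd_of_dvd_pow Nat.prime_three hd; omega)]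
    ring
  obtain ⟨h1, h2⟩ := E_spec (n := n) (x := 2 ^ i * 3 ^ j * a) (Nat.succ_le_of_lt (by positivity)) h
  rw [hv] at h1 h2
  set e := E n (2 ^ i * 3 ^ j * a)
  have h3 : 2 ^ (e + i) * a ≤ n := by
    have : 3 ^ j * (2 ^ (e + i) * a) ≤ 3 ^ j * n := by
      calc _ = 2 ^ e * (2 ^ i * 3 ^ j * a) := by rw [pow_add]; ring
        _ ≤ _ := h1
    exact Nat.le_of_mul_le_mul_left this (by positivity)
  have h4 : n < 2 ^ (e + i + 1) * a := by
    have : 3 ^ j * n < 3 ^ j * (2 ^ (e + i + 1) * a) := by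
      calc _ < _ := h2
        _ = _ := by rw [show e + i + 1 = (e + 1) + i by ring, pow_add _ (e + 1)]; ring
    exact Nat.lt_of_mul_lt_mul_left this
  symm
  have h5 : 2 ^ (e + i) ≤ n / a := (Nat.le_div_iff_mul_le (by omega)).mpr h3
  have h6 : n / a < 2 ^ (e + i + 1) := (Nat.div_lt_iff_lt_mul (by omega)).mpr h4
  exact (Nat.log_eq_iff (Or.inr ⟨by norm_num, by
    have := Nat.one_le_two_pow (n := e + i); omega⟩)).mpr ⟨h5, h6⟩

/-- decomposition `x = 2 ^ i * 3 ^ j * a` -/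
lemma exists_layer {x : ℕ} (hx : 1 ≤ x) :
    ∃ i j a : ℕ, Nat.Coprime 6 a ∧ 1 ≤ a ∧ x = 2 ^ i * 3 ^ j * a := by
  obtain ⟨i, m, hm, rfl⟩ := Nat.exists_eq_two_pow_mul_odd (show x ≠ 0 by omega)
  have hm0 : m ≠ 0 := by rintro rfl; simp at hx
  obtain ⟨j, a, ha, rfl⟩ := Nat.exists_eq_pow_mul_and_not_dvd hm0 3 (by norm_num)
  refine ⟨i, j, a, ?_, ?_, by ring⟩
  · rw [show (6 : ℕ) = 2 * 3 by norm_num]
    apply Nat.Coprime.mul_left
    · rw [Nat.coprime_two_left]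
      exact (Nat.odd_mul.mp hm).2
    · exact (Nat.Prime.coprime_iff_not_dvd Nat.prime_three).mpr ha
  · rcases Nat.eq_zero_or_pos a with h | h
    · subst h; simp at ha
    · exact h

end Pool.Agent.Helper90.NTM
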