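import Mathlib
import Pool.Agent.Helper90.NTM.Defs

/-!
# Combinatorics of one layer
-/

open Finset

namespace Pool.Agent.Helper90.NTM

/-- the columns of a layer -/
def Col (B : Finset (ℕ × ℕ)) (j : ℕ) : Finset (ℕ × ℕ) := B.filter (fun p => p.2 = j)

/-- double columns -/
def Dbl (t : ℕ) (B : Finset (ℕ × ℕ)) : Finset ℕ :=
  (range (Nat.log 3 t + 1)).filter (fun j => 2 ≤ (Col B j).card)

/-- nonempty columns -/
def Ne (t : ℕ) (B : Finset (ℕ × ℕ)) : Finset ℕ :=
  (range (Nat.log 3 t + 1)).filter (fun j => (Col B j).Nonempty)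

/-- elements in double columns -/
def UU (t : ℕ) (B : Finset (ℕ × ℕ)) : Finset (ℕ × ℕ) := B.filter (fun p => p.2 ∈ Dbl t B)

lemma mem_Col {B : Finset (ℕ × ℕ)} {j : ℕ} {p : ℕ × ℕ} : p ∈ Col B j ↔ p ∈ B ∧ p.2 = j := by
  simp [Col]

variable {t : ℕ} {B : Finset (ℕ × ℕ)}

lemma Lay.snd_le (hB : Lay t B) {p : ℕ × ℕ} (hp : p ∈ B) : p.2 ≤ Nat.log 3 t := by
  have h1 := hB.1 p hp
  have h2 : 3 ^ p.2 ≤ t := le_trans (Nat.le_mul_of_pos_left _ (by positivity)) h1
  have h3 : 1 ≤ 3 ^ p.2 := Nat.one_le_pow _ _ (by norm_num)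
  exact (Nat.le_log_iff_pow_le (by norm_num) (by omega)).mpr h2

lemma Lay.fst_le (hB : Lay t B) {p : ℕ × ℕ} (hp : p ∈ B) : p.1 ≤ Nat.log 2 t := by
  have h1 := hB.1 p hp
  have h2 : 2 ^ p.1 ≤ t := le_trans (Nat.le_mul_of_pos_right _ (by positivity)) h1
  have h3 : 1 ≤ 2 ^ p.1 := Nat.one_le_pow _ _ (by norm_num)
  exact (Nat.le_log_iff_pow_le (by norm_num) (by omega)).mpr h2

/-- key fact: above a double column all exponents are smaller -/
lemma Lay.key (hB : Lay t B) {x y i j j' : ℕ} (hx : (x, j) ∈ B) (hy : (y, j) ∈ B) (hxy : x < y)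
    (hi : (i, j') ∈ B) (hj : j < j') : i < x := by
  by_contra h
  refine hB.2 (x, j) hx (y, j) hy (i, j') hi ?_ ?_ ?_ ⟨?_, ?_⟩
  · intro e; have := (Prod.mk.inj e).1; omega
  · intro e; have := (Prod.mk.inj e).2; omega
  · intro e; have := (Prod.mk.inj e).2; omega
  · exact Prod.mk_le_mk.mpr ⟨hxy.le, le_rfl⟩
  · exact Prod.mk_le_mk.mpr ⟨by omega, hj.le⟩

lemma Lay.col_le_two (hB : Lay t B) (j : ℕ) : (Col B j).card ≤ 2 := by
  by_contra h
  push Not at h
  obtain ⟨a, ha, b, hb, c, hc, hab, hac, hbc⟩ := Finset.two_lt_card.mp h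
  rw [mem_Col] at ha hb hc
  obtain ⟨a1, a2⟩ := a
  obtain ⟨b1, b2⟩ := b
  obtain ⟨c1, c2⟩ := c
  simp only at ha hb hc
  obtain ⟨ha, rfl⟩ := ha
  obtain ⟨hb, hb'⟩ := hb
  obtain ⟨hc, hc'⟩ := hc
  subst hb'
  subst hc'
  have e1 : a1 ≠ b1 := fun e => hab (by rw [e])
  have e2 : a1 ≠ c1 := fun e => hac (by rw [e])
  have e3 : b1 ≠ c1 := fun e => hbc (by rw [e])
  rcases le_total a1 b1 with h1 | h1
  · rcases le_total a1 c1 with h2 | h2
    · exact hB.2 _ ha _ hb _ hc hab hac hbc ⟨Prod.mk_le_mk.mpr ⟨h1, le_rfl⟩, Prod.mk_le_mk.mpr ⟨h2, le_rfl⟩⟩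
    · exact hB.2 _ hc _ ha _ hb hac.symm hbc.symm hab
        ⟨Prod.mk_le_mk.mpr ⟨h2, le_rfl⟩, Prod.mk_le_mk.mpr ⟨h2.trans h1, le_rfl⟩⟩
  · rcases le_total b1 c1 with h2 | h2
    · exact hB.2 _ hb _ ha _ hc hab.symm hbc hac
        ⟨Prod.mk_le_mk.mpr ⟨h1, le_rfl⟩, Prod.mk_le_mk.mpr ⟨h2, le_rfl⟩⟩
    · exact hB.2 _ hc _ ha _ hb hac.symm hbc.symm hab
        ⟨Prod.mk_le_mk.mpr ⟨h2.trans h1, le_rfl⟩, Prod.mk_le_mk.mpr ⟨h2, le_rfl⟩⟩

/-- an element of a double column has a partner -/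
lemma partner {j x : ℕ} (hj : j ∈ Dbl t B) :
    ∃ y, y ≠ x ∧ (y, j) ∈ B := by
  unfold Dbl at hj
  rw [mem_filter] at hj
  obtain ⟨a, ha, b, hb, hab⟩ := Finset.one_lt_card.mp hj.2
  rw [mem_Col] at ha hb
  obtain ⟨a1, a2⟩ := a
  obtain ⟨b1, b2⟩ := b
  simp only at ha hb
  obtain ⟨ha, rfl⟩ := ha
  obtain ⟨hb, hb'⟩ := hb
  subst hb'
  by_cases h : a1 = x
  · refine ⟨b1, ?_, hb⟩
    rintro rfl
    exact hab (by rw [h])
  · exact ⟨a1, h, ha⟩

lemma mem_UU {p : ℕ × ℕ} : p ∈ UU t B ↔ p ∈ B ∧ p.2 ∈ Dbl t B := by simp [UU]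

lemma Lay.card_eq (hB : Lay t B) : B.card = (Ne t B).card + (Dbl t B).card := by
  have h1 : B.card = ∑ j ∈ range (Nat.log 3 t + 1), (Col B j).card := by
    apply card_eq_sum_card_fiberwise
    intro p hp
    rw [Finset.mem_coe, mem_range]
    have := hB.snd_le hp
    omega
  rw [h1]
  unfold Ne Dbl
  rw [card_filter, card_filter, ← sum_add_distrib]
  apply sum_congr rfl
  intro j hj
  have h2 := hB.col_le_two j
  have h3 : (Col B j).Nonempty ↔ 1 ≤ (Col B j).card := by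
    rw [← Finset.card_pos]
    rfl
  by_cases h4 : 2 ≤ (Col B j).card
  · rw [if_pos (h3.mpr (by omega)), if_pos h4]; omega
  · by_cases h5 : (Col B j).Nonempty
    · rw [if_pos h5, if_neg h4]
      have := h3.mp h5
      omega
    · rw [if_neg h5, if_neg h4]
      rw [h3] at h5
      omega

lemma Lay.card_UU (hB : Lay t B) : (UU t B).card = 2 * (Dbl t B).card := by
  have h1 : (UU t B).card = ∑ j ∈ Dbl t B, ((UU t B).filter (fun p => p.2 = j)).card := by
    apply card_eq_sum_card_fiberwise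
    intro p hp
    exact (mem_UU.mp hp).2
  rw [h1, mul_comm, ← smul_eq_mul, ← Finset.sum_const]
  apply sum_congr rfl
  intro j hj
  have h2 : (UU t B).filter (fun p => p.2 = j) = Col B j := by
    ext p
    rw [mem_filter, mem_UU, mem_Col]
    constructor
    · rintro ⟨⟨h, -⟩, h'⟩; exact ⟨h, h'⟩
    · rintro ⟨h, h'⟩; exact ⟨⟨h, h' ▸ hj⟩, h'⟩
  rw [h2]
  have h3 := hB.col_le_two j
  have h4 : 2 ≤ (Col B j).card := (mem_filter.mp hj).2
  omega

lemma Lay.fst_injOn (hB : Lay t B) : Set.InjOn Prod.fst (UU t B : Set (ℕ × ℕ)) := by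
  have key : ∀ x j j', (x, j) ∈ UU t B → (x, j') ∈ UU t B → j < j' → False := by
    intro x j j' h1 h2 h3
    rw [mem_UU] at h1 h2
    obtain ⟨y, hy, hyB⟩ := partner (x := x) h1.2
    rcases lt_or_gt_of_ne hy with h | h
    · have := hB.key hyB h1.1 h h2.1 h3
      omega
    · have := hB.key h1.1 hyB h h2.1 h3
      omega
  rintro ⟨x, j⟩ h1 ⟨x', j'⟩ h2 h
  simp only at h
  subst h
  rcases lt_trichotomy j j' with h3 | h3 | h3
  · exact (key x j j' h1 h2 h3).elim
  · rw [h3]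
  · exact (key x j' j h2 h1 h3).elim

lemma Lay.dbl_le (hB : Lay t B) : 2 * (Dbl t B).card ≤ Nat.log 2 t + 1 := by
  rw [← hB.card_UU, ← card_image_of_injOn hB.fst_injOn, ← card_range (Nat.log 2 t + 1)]
  apply card_le_card
  intro x hx
  rw [mem_image] at hx
  obtain ⟨p, hp, rfl⟩ := hx
  rw [mem_range]
  have := hB.fst_le (mem_UU.mp hp).1
  omega

lemma ne_le : (Ne t B).card ≤ Nat.log 3 t + 1 := by
  calc _ ≤ (range (Nat.log 3 t + 1)).card := card_le_card (filter_subset _ _)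
    _ = _ := card_range _

lemma ne_le' (h : ¬ (Col B (Nat.log 3 t)).Nonempty) : (Ne t B).card ≤ Nat.log 3 t := by
  calc _ ≤ (range (Nat.log 3 t)).card := by
        apply card_le_card
        intro j hj
        unfold Ne at hj
        rw [mem_filter, mem_range] at hj
        rw [mem_range]
        rcases Nat.lt_or_ge j (Nat.log 3 t) with h1 | h1
        · exact h1
        · have : j = Nat.log 3 t := by omega
          subst this
          exact absurd hj.2 h
    _ = _ := card_range _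

/-- if the last column is nonempty and `t < 2 * 3 ^ J` -/
lemma Lay.last (hB : Lay t B) (hb : ¬ 2 * 3 ^ Nat.log 3 t ≤ t)
    (h : (Col B (Nat.log 3 t)).Nonempty) : (0, Nat.log 3 t) ∈ B ∧ ∀ j, (0, j) ∉ UU t B := by
  have h0 : ∀ i, (i, Nat.log 3 t) ∈ B → i = 0 := by
    intro i hi
    have h1 := hB.1 _ hi
    simp only at h1
    by_contra h2
    have h3 : 2 ^ 1 ≤ 2 ^ i := Nat.pow_le_pow_right (by norm_num) (by omega)
    have h4 : 2 * 3 ^ Nat.log 3 t ≤ 2 ^ i * 3 ^ Nat.log 3 t := Nat.mul_le_mul_right _ (by simpa using h3)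
    omega
  obtain ⟨⟨i, j⟩, hp⟩ := h
  rw [mem_Col] at hp
  obtain ⟨hp, hj⟩ := hp
  simp only at hj
  subst hj
  have hi := h0 i hp
  subst hi
  refine ⟨hp, ?_⟩
  intro j hj
  rw [mem_UU] at hj
  obtain ⟨y, hy, hyB⟩ := partner (x := 0) hj.2
  have hjJ := hB.snd_le hj.1
  simp only at hjJ
  rcases Nat.lt_or_ge j (Nat.log 3 t) with h1 | h1
  · have := hB.key hj.1 hyB (by omega) hp h1
    omega
  · have : j = Nat.log 3 t := by omega
    subst this
    exact hy (h0 y hyB)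

lemma Lay.dbl_le' (hB : Lay t B) (hb : ¬ 2 * 3 ^ Nat.log 3 t ≤ t)
    (h : (Col B (Nat.log 3 t)).Nonempty) : 2 * (Dbl t B).card ≤ Nat.log 2 t := by
  have h0 := (hB.last hb h).2
  rw [← hB.card_UU, ← card_image_of_injOn hB.fst_injOn]
  calc _ ≤ (Icc 1 (Nat.log 2 t)).card := by
        apply card_le_card
        intro x hx
        rw [mem_image] at hx
        obtain ⟨⟨i, j⟩, hp, rfl⟩ := hx
        rw [mem_Icc]
        have h1 := hB.fst_le (mem_UU.mp hp).1
        simp only at h1 ⊢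
        refine ⟨?_, h1⟩
        by_contra h2
        have : i = 0 := by omega
        subst this
        exact h0 j hp
    _ = _ := by simp

theorem Lay.card_le (hB : Lay t B) : B.card ≤ gg t := by
  rw [hB.card_eq]
  unfold gg
  have h1 := hB.dbl_le
  have h2 := ne_le (t := t) (B := B)
  split_ifs with hb
  · omega
  · by_cases h : (Col B (Nat.log 3 t)).Nonempty
    · have := hB.dbl_le' hb h
      omega
    · have := ne_le' h
      omega

lemma Lay.all_ne (hc : (Ne t B).card = Nat.log 3 t + 1) {j : ℕ} (hj : j ≤ Nat.log 3 t) :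
    ∃ i, (i, j) ∈ B := by
  have h1 : Ne t B = range (Nat.log 3 t + 1) := by
    apply eq_of_subset_of_card_le (filter_subset _ _)
    change (range (Nat.log 3 t + 1)).card ≤ (Ne t B).card
    rw [hc, card_range]
  have h2 : j ∈ Ne t B := by rw [h1, mem_range]; omega
  unfold Ne at h2
  rw [mem_filter] at h2
  obtain ⟨⟨i, j'⟩, hp⟩ := h2.2
  rw [mem_Col] at hp
  obtain ⟨hp, e⟩ := hp
  simp only at e
  subst e
  exact ⟨i, hp⟩

theorem Lay.tight0 (ht : Bad t) (hB : Lay t B) (hc : B.card = gg t) :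
    2 ≤ Nat.log 3 t ∧ (1, Nat.log 3 t - 2) ∈ B ∧ (2, Nat.log 3 t - 2) ∈ B := by
  obtain ⟨b1, b2, b3, b4⟩ := ht
  have hp : 1 ≤ 3 ^ Nat.log 3 t := Nat.one_le_pow _ _ (by norm_num)
  have hb : ¬ 2 * 3 ^ Nat.log 3 t ≤ t := by omega
  have hI : 2 ≤ Nat.log 2 t := by
    have h1 : 2 ≤ t := by omega
    have h2 : 1 ≤ Nat.log 2 t := (Nat.le_log_iff_pow_le (by norm_num) (by omega)).mpr (by omega)
    omega
  have hcard := hB.card_eq
  rw [hc] at hcard
  unfold gg at hcard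
  rw [if_neg hb] at hcard
  have h1 := hB.dbl_le
  have h2 := ne_le (t := t) (B := B)
  have hne : (Col B (Nat.log 3 t)).Nonempty := by
    by_contra h
    have := ne_le' h
    omega
  have h3 := hB.dbl_le' hb hne
  have hN : (Ne t B).card = Nat.log 3 t + 1 := by omega
  have hD : 2 * (Dbl t B).card = Nat.log 2 t := by omega
  obtain ⟨hJB, h0⟩ := hB.last hb hne
  have him : (UU t B).image Prod.fst = Icc 1 (Nat.log 2 t) := by
    apply eq_of_subset_of_card_le
    · intro x hx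
      rw [mem_image] at hx
      obtain ⟨⟨i, j⟩, hp, rfl⟩ := hx
      rw [mem_Icc]
      have h1 := hB.fst_le (mem_UU.mp hp).1
      simp only at h1 ⊢
      refine ⟨?_, h1⟩
      by_contra h2
      have : i = 0 := by omega
      subst this
      exact h0 j hp
    · rw [card_image_of_injOn hB.fst_injOn, hB.card_UU]
      simp
      omega
  have m1 : 1 ∈ (UU t B).image Prod.fst := by rw [him, mem_Icc]; omega
  have m2 : 2 ∈ (UU t B).image Prod.fst := by rw [him, mem_Icc]; omega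
  rw [mem_image] at m1 m2
  obtain ⟨⟨i1, j1⟩, hu1, e1⟩ := m1
  obtain ⟨⟨i2, j2⟩, hu2, e2⟩ := m2
  simp only at e1 e2
  subst e1
  subst e2
  have hu1' := mem_UU.mp hu1
  have hu2' := mem_UU.mp hu2
  obtain ⟨e, he, heB⟩ := partner (x := 1) hu1'.2
  obtain ⟨e', he', heB'⟩ := partner (x := 2) hu2'.2
  have he0 : e ≠ 0 := by
    rintro rfl
    exact h0 j1 (mem_UU.mpr ⟨heB, hu1'.2⟩)
  have he0' : e' ≠ 0 := by
    rintro rfl
    exact h0 j2 (mem_UU.mpr ⟨heB', hu2'.2⟩)
  have hj : j1 = j2 := by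
    rcases lt_trichotomy j1 j2 with h | h | h
    · have := hB.key hu1'.1 heB (by omega) hu2'.1 h
      omega
    · exact h
    · rcases Nat.lt_or_ge 2 e' with h5 | h5
      · have := hB.key hu2'.1 heB' h5 heB h
        omega
      · have := hB.key heB' hu2'.1 (by omega) heB h
        omega
  subst hj
  have hup : ∀ j, j1 < j → j ≤ Nat.log 3 t → (0, j) ∈ B := by
    intro j h5 h6
    obtain ⟨i, hi⟩ := Lay.all_ne hN h6
    have h7 := hB.key hu1'.1 hu2'.1 (by norm_num) hi h5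
    have : i = 0 := by omega
    subst this
    exact hi
  have hle : Nat.log 3 t ≤ j1 + 2 := by
    by_contra h5
    push Not at h5
    refine hB.2 (0, j1 + 1) (hup _ (by omega) (by omega)) (0, j1 + 2) (hup _ (by omega) (by omega))
      (0, Nat.log 3 t) hJB ?_ ?_ ?_ ⟨?_, ?_⟩
    · intro e; have := (Prod.mk.inj e).2; omega
    · intro e; have := (Prod.mk.inj e).2; omega
    · intro e; have := (Prod.mk.inj e).2; omega
    · exact Prod.mk_le_mk.mpr ⟨le_rfl, by omega⟩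
    · exact Prod.mk_le_mk.mpr ⟨le_rfl, by omega⟩
  have hge : j1 + 2 ≤ Nat.log 3 t := by
    have h5 := hB.1 _ hu2'.1
    simp only at h5
    have h6 : 3 ^ (j1 + 1) < 3 ^ Nat.log 3 t := by
      rw [pow_succ]
      omega
    have := (Nat.pow_lt_pow_iff_right (show 1 < 3 by norm_num)).mp h6
    omega
  have hj : j1 = Nat.log 3 t - 2 := by omega
  subst hj
  exact ⟨by omega, hu1'.1, hu2'.1⟩

theorem Lay.tight1 (h1 : 2 * 3 ^ Nat.log 3 t ≤ t) (h2 : Nat.log 2 t % 2 = 1)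
    (hB : Lay t B) (hc : B.card = gg t) : (1, Nat.log 3 t) ∈ B := by
  have hcard := hB.card_eq
  rw [hc] at hcard
  unfold gg at hcard
  rw [if_pos h1] at hcard
  have h3 := hB.dbl_le
  have h4 := ne_le (t := t) (B := B)
  have hN : (Ne t B).card = Nat.log 3 t + 1 := by omega
  have hD : 2 * (Dbl t B).card = Nat.log 2 t + 1 := by omega
  have him : (UU t B).image Prod.fst = range (Nat.log 2 t + 1) := by
    apply eq_of_subset_of_card_le
    · intro x hx
      rw [mem_image] at hx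
      obtain ⟨p, hp, rfl⟩ := hx
      rw [mem_range]
      have := hB.fst_le (mem_UU.mp hp).1
      omega
    · rw [card_image_of_injOn hB.fst_injOn, hB.card_UU, card_range]
      omega
  have m0 : 0 ∈ (UU t B).image Prod.fst := by rw [him, mem_range]; omega
  have m1 : 1 ∈ (UU t B).image Prod.fst := by rw [him, mem_range]; omega
  rw [mem_image] at m0 m1
  obtain ⟨⟨i0, j0⟩, hu0, e0⟩ := m0
  obtain ⟨⟨i1, j1⟩, hu1, e1⟩ := m1
  simp only at e0 e1
  subst e0
  subst e1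
  have hu0' := mem_UU.mp hu0
  have hu1' := mem_UU.mp hu1
  obtain ⟨e, he, heB⟩ := partner (x := 0) hu0'.2
  have hj0 : j0 = Nat.log 3 t := by
    have h5 := hB.snd_le hu0'.1
    simp only at h5
    by_contra h6
    obtain ⟨i, hi⟩ := Lay.all_ne hN (le_refl (Nat.log 3 t))
    have := hB.key hu0'.1 heB (by omega) hi (by omega)
    omega
  subst hj0
  have hj1 := hB.snd_le hu1'.1
  simp only at hj1
  rcases Nat.lt_or_ge j1 (Nat.log 3 t) with h5 | h5
  · obtain ⟨y, hy, hyB⟩ := partner (x := 1) hu1'.2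
    rcases lt_or_gt_of_ne hy with h6 | h6
    · have := hB.key hyB hu1'.1 h6 heB h5
      omega
    · have := hB.key hu1'.1 hyB h6 heB h5
      omega
  · have : j1 = Nat.log 3 t := by omega
    subst this
    exact hu1'.1

end Pool.Agent.Helper90.NTM
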