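import Mathlib
import Pool.Agent.Helper90.NTM.Basic
import Pool.Agent.Helper90.NTM.Layer

/-!
# The upper bound
-/

open Finset
open Pool.Agent.Helper90.NoTwoMultiples

namespace Pool.Agent.Helper90.NTM

local instance : Fact (Nat.Prime 3) := ⟨Nat.prime_three⟩
local instance : Fact (Nat.Prime 2) := ⟨Nat.prime_two⟩

lemma cop_not_three {a : ℕ} (ha : Nat.Coprime 6 a) : ¬ 3 ∣ a := fun hd => by
  have := Nat.dvd_gcd (show 3 ∣ 6 by norm_num) hd
  rw [Nat.coprime_iff_gcd_eq_one.mp ha] at this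
  omega

lemma cop_not_two {a : ℕ} (ha : Nat.Coprime 6 a) : ¬ 2 ∣ a := fun hd => by
  have := Nat.dvd_gcd (show 2 ∣ 6 by norm_num) hd
  rw [Nat.coprime_iff_gcd_eq_one.mp ha] at this
  omega

lemma v3_layer {a i j : ℕ} (ha : Nat.Coprime 6 a) (ha1 : 1 ≤ a) :
    padicValNat 3 (2 ^ i * 3 ^ j * a) = j := by
  rw [padicValNat.mul (by positivity) (by omega), padicValNat.mul (by positivity) (by positivity),
    padicValNat.eq_zero_of_not_dvd (cop_not_three ha), padicValNat.prime_pow,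
    padicValNat.eq_zero_of_not_dvd
      (fun hd => by have := Nat.Prime.dvd_of_dvd_pow Nat.prime_three hd; omega)]
  ring

lemma v2_layer {a i j : ℕ} (ha : Nat.Coprime 6 a) (ha1 : 1 ≤ a) :
    padicValNat 2 (2 ^ i * 3 ^ j * a) = i := by
  rw [padicValNat.mul (by positivity) (by omega), padicValNat.mul (by positivity) (by positivity),
    padicValNat.eq_zero_of_not_dvd (cop_not_two ha), padicValNat.prime_pow,
    padicValNat.eq_zero_of_not_dvd (p := 2) (n := 3 ^ j)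
      (fun hd => by have := Nat.Prime.dvd_of_dvd_pow Nat.prime_two hd; omega)]
  ring

lemma layer_unique {a a' i i' j j' : ℕ} (ha : Nat.Coprime 6 a) (ha1 : 1 ≤ a)
    (ha' : Nat.Coprime 6 a') (ha1' : 1 ≤ a') (h : 2 ^ i * 3 ^ j * a = 2 ^ i' * 3 ^ j' * a') :
    i = i' ∧ j = j' ∧ a = a' := by
  have h3 : j = j' := by rw [← v3_layer (i := i) (j := j) ha ha1, h, v3_layer ha' ha1']
  have h2 : i = i' := by rw [← v2_layer (i := i) (j := j) ha ha1, h, v2_layer ha' ha1']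
  subst h3
  subst h2
  exact ⟨rfl, rfl, Nat.eq_of_mul_eq_mul_left (by positivity) h⟩

/-- the layer of `a` -/
def LB (A : Finset ℕ) (n a : ℕ) : Finset (ℕ × ℕ) :=
  (range (n + 1) ×ˢ range (n + 1)).filter (fun p => 2 ^ p.1 * 3 ^ p.2 * a ∈ A)

lemma mem_LB {A : Finset ℕ} {n a : ℕ} (hA : A ⊆ Icc 1 n) (ha : 1 ≤ a) {p : ℕ × ℕ} :
    p ∈ LB A n a ↔ 2 ^ p.1 * 3 ^ p.2 * a ∈ A := by
  unfold LB
  rw [mem_filter, mem_product, mem_range, mem_range]
  constructor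
  · exact fun h => h.2
  · intro h
    refine ⟨⟨?_, ?_⟩, h⟩
    · have h1 := (mem_Icc.mp (hA h)).2
      have h2 : 2 ^ p.1 ≤ 2 ^ p.1 * 3 ^ p.2 * a := by
        rw [mul_assoc]
        exact Nat.le_mul_of_pos_right _ (by positivity)
      have h3 := Nat.lt_two_pow_self (n := p.1)
      omega
    · have h1 := (mem_Icc.mp (hA h)).2
      have h2 : 3 ^ p.2 ≤ 2 ^ p.1 * 3 ^ p.2 * a := by
        calc 3 ^ p.2 ≤ 2 ^ p.1 * 3 ^ p.2 := Nat.le_mul_of_pos_left _ (by positivity)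
          _ ≤ _ := Nat.le_mul_of_pos_right _ ha
      have h3 : p.2 < 3 ^ p.2 := Nat.lt_pow_self (by norm_num)
      omega

lemma mem_Cop {n a : ℕ} : a ∈ Cop n ↔ (1 ≤ a ∧ a ≤ n) ∧ Nat.Coprime 6 a := by
  unfold Cop
  rw [mem_filter, mem_Icc]

lemma card_layers {A : Finset ℕ} {n : ℕ} (hA : A ⊆ Icc 1 n) :
    A.card = ∑ a ∈ Cop n, (LB A n a).card := by
  rw [← card_sigma]
  symm
  apply card_bij (fun (s : Sigma fun _ : ℕ => ℕ × ℕ) _ => 2 ^ s.2.1 * 3 ^ s.2.2 * s.1)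
  · rintro ⟨a, p⟩ h
    rw [mem_sigma] at h
    have ha := mem_Cop.mp h.1
    exact (mem_LB hA ha.1.1).mp h.2
  · rintro ⟨a, i, j⟩ h ⟨a', i', j'⟩ h' e
    rw [mem_sigma] at h h'
    have ha := mem_Cop.mp h.1
    have ha' := mem_Cop.mp h'.1
    simp only at ha ha' e
    obtain ⟨rfl, rfl, rfl⟩ := layer_unique ha.2 ha.1.1 ha'.2 ha'.1.1 e
    rfl
  · intro x hx
    have hx1 := mem_Icc.mp (hA hx)
    obtain ⟨i, j, a, h1, h2, h3⟩ := exists_layer hx1.1
    refine ⟨⟨a, i, j⟩, ?_, h3.symm⟩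
    rw [mem_sigma]
    have h4 : a ≤ x := by
      rw [h3]
      exact Nat.le_mul_of_pos_left _ (by positivity)
    have ha : a ∈ Cop n := mem_Cop.mpr ⟨⟨h2, h4.trans hx1.2⟩, h1⟩
    exact ⟨ha, (mem_LB hA h2).mpr (by rw [← h3]; exact hx)⟩

lemma lay_LB {A : Finset ℕ} {n a : ℕ} (hA : A ⊆ Icc 1 n) (h : Admissible A) (ha : a ∈ Cop n) :
    Lay (n / a) (LB A n a) := by
  have ha' := mem_Cop.mp ha
  have hinj : ∀ p q : ℕ × ℕ, p ≠ q → 2 ^ p.1 * 3 ^ p.2 * a ≠ 2 ^ q.1 * 3 ^ q.2 * a := by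
    intro p q hpq e
    obtain ⟨h1, h2, -⟩ := layer_unique ha'.2 ha'.1.1 ha'.2 ha'.1.1 e
    exact hpq (Prod.ext h1 h2)
  have hdvd : ∀ p q : ℕ × ℕ, p ≤ q → 2 ^ p.1 * 3 ^ p.2 * a ∣ 2 ^ q.1 * 3 ^ q.2 * a := by
    intro p q hpq
    exact mul_dvd_mul (mul_dvd_mul (pow_dvd_pow 2 hpq.1) (pow_dvd_pow 3 hpq.2)) dvd_rfl
  constructor
  · intro p hp
    rw [mem_LB hA ha'.1.1] at hp
    exact (Nat.le_div_iff_mul_le (by omega)).mpr (mem_Icc.mp (hA hp)).2
  · intro p hp q hq r hr hpq hpr hqr hle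
    rw [mem_LB hA ha'.1.1] at hp hq hr
    exact h _ hp _ hq _ hr (hinj _ _ hpq) (hinj _ _ hpr) (hinj _ _ hqr)
      ⟨hdvd _ _ hle.1, hdvd _ _ hle.2⟩

theorem Bad.div5 {t : ℕ} (ht : Bad t) : Nat.log 3 (t / 5) = Nat.log 3 t - 2 ∧
    2 * 3 ^ Nat.log 3 (t / 5) ≤ t / 5 ∧ Nat.log 2 (t / 5) % 2 = 1 ∧ ¬ Bad (t / 5) ∧ 5 ≤ t := by
  obtain ⟨b1, b2, b3, b4⟩ := ht
  have hp : 1 ≤ 3 ^ Nat.log 3 t := Nat.one_le_pow _ _ (by norm_num)
  have ht9 : 9 ≤ t := by
    by_contra hc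
    rcases Nat.lt_or_ge t 3 with h5 | h5
    · have : Nat.log 3 t = 0 := Nat.log_of_lt h5
      rw [this] at b1 b2
      omega
    · have : Nat.log 3 t = 1 := (Nat.log_eq_iff (Or.inr ⟨by norm_num, by omega⟩)).mpr (by
        constructor <;> omega)
      rw [this] at b1 b2
      omega
  have hJ : 2 ≤ Nat.log 3 t :=
    (Nat.le_log_iff_pow_le (by norm_num) (by omega)).mpr (by norm_num; exact ht9)
  obtain ⟨J, hJ'⟩ := Nat.exists_eq_add_of_le hJ
  have hI : 3 ≤ Nat.log 2 t :=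
    (Nat.le_log_iff_pow_le (by norm_num) (by omega)).mpr (by norm_num; omega)
  obtain ⟨I, hI'⟩ := Nat.exists_eq_add_of_le hI
  have p3 : 3 ^ (2 + J) = 9 * 3 ^ J := by rw [pow_add]; norm_num
  have p2 : 2 ^ (3 + I) = 8 * 2 ^ I := by rw [pow_add]; norm_num
  have hI2 : 2 ^ Nat.log 2 t ≤ t := Nat.pow_log_le_self 2 (by omega)
  rw [hJ', p3] at b1 b2
  rw [hI', p2] at b4 hI2
  have q3 : 1 ≤ 3 ^ J := Nat.one_le_pow _ _ (by norm_num)
  have q2 : 1 ≤ 2 ^ I := Nat.one_le_pow _ _ (by norm_num)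
  have e3 : Nat.log 3 (t / 5) = J := by
    refine (Nat.log_eq_iff (Or.inr ⟨by norm_num, by omega⟩)).mpr ⟨by omega, ?_⟩
    rw [pow_succ]; omega
  have e2 : Nat.log 2 (t / 5) = I := by
    refine (Nat.log_eq_iff (Or.inr ⟨by norm_num, by omega⟩)).mpr ⟨by omega, ?_⟩
    rw [pow_succ]; omega
  refine ⟨by omega, by rw [e3]; omega, by rw [e2]; omega, ?_, by omega⟩
  rintro ⟨-, c2, -, -⟩
  rw [e3] at c2
  omega

lemma gg_pos (t : ℕ) : 1 ≤ gg t := by unfold gg; omega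

lemma sum_G (n : ℕ) : ∑ a ∈ Cop n, G (n / a) + ((Cop n).filter (fun a => Bad (n / a))).card =
    ∑ a ∈ Cop n, gg (n / a) := by
  rw [card_filter, ← sum_add_distrib]
  apply sum_congr rfl
  intro a ha
  have := gg_pos (n / a)
  unfold G
  split_ifs <;> omega

lemma cop_five {n a : ℕ} (ha : a ∈ Cop n) (h : 5 ≤ n / a) : 5 * a ∈ Cop n := by
  rw [mem_Cop] at ha ⊢
  refine ⟨⟨by omega, (Nat.le_div_iff_mul_le (by omega)).mp h⟩, ?_⟩
  exact Nat.Coprime.mul_right (by decide) ha.2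

theorem upper {n : ℕ} {A : Finset ℕ} (hA : A ⊆ Icc 1 n) (h : Admissible A) :
    A.card ≤ ∑ a ∈ Cop n, G (n / a) := by
  classical
  set Bd := (Cop n).filter (fun a => Bad (n / a)) with hBd
  have hle : ∀ a ∈ Cop n, (LB A n a).card ≤ gg (n / a) := fun a ha => (lay_LB hA h ha).card_le
  -- the deficits
  let w : ℕ → ℕ := fun a => gg (n / a) - (LB A n a).card
  have hw : ∑ a ∈ Cop n, w a + A.card = ∑ a ∈ Cop n, gg (n / a) := by
    rw [card_layers hA, ← sum_add_distrib]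
    apply sum_congr rfl
    intro a ha
    have := hle a ha
    simp only [w]
    omega
  have hpair : ∀ a ∈ Bd, 1 ≤ w a + w (5 * a) := by
    intro a ha
    rw [hBd, mem_filter] at ha
    obtain ⟨haC, hbad⟩ := ha
    obtain ⟨d1, d2, d3, d4, d5⟩ := hbad.div5
    have h5C := cop_five haC d5
    have haC' := mem_Cop.mp haC
    by_contra hc
    have hw1 : w a = 0 := by omega
    have hw2 : w (5 * a) = 0 := by omega
    have c1 : (LB A n a).card = gg (n / a) := by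
      have := hle a haC
      simp only [w] at hw1
      omega
    have c2 : (LB A n (5 * a)).card = gg (n / (5 * a)) := by
      have := hle (5 * a) h5C
      simp only [w] at hw2
      omega
    obtain ⟨-, t1, t2⟩ := Lay.tight0 hbad (lay_LB hA h haC) c1
    have e5 : n / (5 * a) = n / a / 5 := by rw [mul_comm 5 a, Nat.div_div_eq_div_mul]
    have t3 := Lay.tight1 (t := n / (5 * a)) (by rw [e5]; exact d2) (by rw [e5]; exact d3)
      (lay_LB hA h h5C) c2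
    rw [e5, d1] at t3
    rw [mem_LB hA haC'.1.1] at t1 t2
    rw [mem_LB hA (by omega)] at t3
    simp only at t1 t2 t3
    set m := 3 ^ (Nat.log 3 (n / a) - 2) * a with hm
    have hm0 : 0 < m := by
      have := haC'.1.1
      positivity
    have r1 : 2 ^ 1 * 3 ^ (Nat.log 3 (n / a) - 2) * a = 2 * m := by rw [hm]; ring
    have r2 : 2 ^ 2 * 3 ^ (Nat.log 3 (n / a) - 2) * a = 4 * m := by rw [hm]; ring
    have r3 : 2 ^ 1 * 3 ^ (Nat.log 3 (n / a) - 2) * (5 * a) = 10 * m := by rw [hm]; ring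
    rw [r1] at t1
    rw [r2] at t2
    rw [r3] at t3
    exact h _ t1 _ t2 _ t3 (by omega) (by omega) (by omega) ⟨⟨2, by ring⟩, ⟨5, by ring⟩⟩
  have hdisj : Disjoint Bd (Bd.image (fun a => 5 * a)) := by
    rw [disjoint_left]
    intro a ha hb
    rw [mem_image] at hb
    obtain ⟨b, hb, rfl⟩ := hb
    rw [hBd, mem_filter] at ha hb
    obtain ⟨d1, d2, d3, d4, d5⟩ := hb.2.div5
    have e5 : n / (5 * b) = n / b / 5 := by rw [mul_comm 5 b, Nat.div_div_eq_div_mul]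
    rw [e5] at ha
    exact d4 ha.2
  have hsub : Bd ∪ Bd.image (fun a => 5 * a) ⊆ Cop n := by
    intro a ha
    rw [mem_union] at ha
    rcases ha with ha | ha
    · exact (mem_filter.mp ha).1
    · rw [mem_image] at ha
      obtain ⟨b, hb, rfl⟩ := ha
      rw [hBd, mem_filter] at hb
      exact cop_five hb.1 hb.2.div5.2.2.2.2
  have hsum : Bd.card ≤ ∑ a ∈ Cop n, w a := by
    calc Bd.card = ∑ a ∈ Bd, 1 := by simp
      _ ≤ ∑ a ∈ Bd, (w a + w (5 * a)) := sum_le_sum hpair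
      _ = ∑ a ∈ Bd, w a + ∑ a ∈ Bd.image (fun a => 5 * a), w a := by
          rw [sum_add_distrib, sum_image]
          intro x _ y _ hxy
          simp only at hxy
          omega
      _ = ∑ a ∈ Bd ∪ Bd.image (fun a => 5 * a), w a := (sum_union hdisj).symm
      _ ≤ _ := sum_le_sum_of_subset hsub
  have := sum_G n
  rw [← hBd] at this
  omega

end Pool.Agent.Helper90.NTM
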