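import Mathlib
import Pool.Agent.Helper40.NTM.Defs
import Pool.Agent.Helper90.NTM.Upper

/-!
# Comparison of the two sets of definitions
-/

open Finset
open Pool.Agent.Helper40.NTM

namespace Pool.Agent.Helper90.NTM

lemma hh_eq {q : ℕ} (hq : 1 ≤ q) : hh q = gg q := by
  unfold hh gg
  rw [if_neg (by omega)]
  by_cases h : 2 * 3 ^ Nat.log 3 q ≤ q
  · by_cases h2 : Nat.log 2 q % 2 = 1
    · rw [if_pos ⟨h2, h⟩, if_pos h]; omega
    · rw [if_neg (fun e => h2 e.1), if_pos h]; omega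
  · rw [if_neg (fun e => h e.2), if_neg h]; omega

lemma InD_iff {q : ℕ} : InD q ↔ Bad q := by
  constructor
  · rintro ⟨a, b, h1, h2, h3, h4⟩
    have p4 : 4 ^ (a + 1) = 4 * 4 ^ a := by rw [pow_succ]; ring
    rw [p4] at h1
    have q4 : 1 ≤ 4 ^ a := Nat.one_le_pow _ _ (by norm_num)
    have q3 : 1 ≤ 3 ^ b := Nat.one_le_pow _ _ (by norm_num)
    have e2 : 2 ^ (2 * a + 2) = 4 * 4 ^ a := by
      rw [pow_add, pow_mul]; norm_num; ring
    have e2' : 2 ^ (2 * a + 2 + 1) = 8 * 4 ^ a := by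
      rw [pow_succ, e2]; ring
    have e3 : 3 ^ (b + 2) = 9 * 3 ^ b := by rw [pow_add]; norm_num; ring
    have e3' : 3 ^ (b + 2 + 1) = 27 * 3 ^ b := by rw [pow_succ, e3]; ring
    have hI : Nat.log 2 q = 2 * a + 2 :=
      (Nat.log_eq_iff (Or.inr ⟨by norm_num, by omega⟩)).mpr ⟨by rw [e2]; exact h1, by rw [e2']; omega⟩
    have hJ : Nat.log 3 q = b + 2 :=
      (Nat.log_eq_iff (Or.inr ⟨by norm_num, by omega⟩)).mpr ⟨by rw [e3]; omega, by rw [e3']; omega⟩
    unfold Bad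
    rw [hI, hJ, e2, e3]
    exact ⟨by omega, by omega, by omega, by omega⟩
  · intro h
    have h5 := h.div5
    obtain ⟨b1, b2, b3, b4⟩ := h
    have h9 : 9 ≤ q := by
      by_contra hc
      have : Nat.log 3 q ≤ 1 := by
        have : Nat.log 3 q < 2 := Nat.log_lt_of_lt_pow (by omega) (by omega)
        omega
      have h0 : Nat.log 3 q = 0 ∨ Nat.log 3 q = 1 := by omega
      rcases h0 with h0 | h0
      · rw [h0] at b1 b2; omega
      · rw [h0] at b1 b2; omega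
    have hJ : 2 ≤ Nat.log 3 q :=
      (Nat.le_log_iff_pow_le (by norm_num) (by omega)).mpr (by norm_num; exact h9)
    have hI : 3 ≤ Nat.log 2 q :=
      (Nat.le_log_iff_pow_le (by norm_num) (by omega)).mpr (by norm_num; omega)
    obtain ⟨b, hb⟩ := Nat.exists_eq_add_of_le hJ
    obtain ⟨a, ha⟩ : ∃ a, Nat.log 2 q = 2 * a + 2 := ⟨Nat.log 2 q / 2 - 1, by omega⟩
    have hI2 : 2 ^ Nat.log 2 q ≤ q := Nat.pow_log_le_self 2 (by omega)
    have e2 : 2 ^ (2 * a + 2) = 4 * 4 ^ a := by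
      rw [pow_add, pow_mul]; norm_num; ring
    have e3 : 3 ^ (2 + b) = 9 * 3 ^ b := by rw [pow_add]; norm_num
    rw [hb, e3] at b1 b2
    rw [ha, e2] at b4 hI2
    refine ⟨a, b, ?_, by omega, by omega, by omega⟩
    rw [pow_succ]; omega

end Pool.Agent.Helper90.NTM
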