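import Mathlib
import Pool.Agent.Helper90.NTM.Defs
import Pool.Agent.Helper90.NoTwoMultiplesLimit

/-!
# Steps of the function `G`, and the limit
-/

open Finset Filter Topology
open Pool.Agent.Helper90.NoTwoMultiples

namespace Pool.Agent.Helper90.NTM

lemma log_succ_cases (b t : ℕ) (hb : 1 < b) (ht : 1 ≤ t) :
    Nat.log b (t + 1) = Nat.log b t ∨
      (Nat.log b (t + 1) = Nat.log b t + 1 ∧ t + 1 = b ^ Nat.log b (t + 1)) := by
  have h1 : Nat.log b t ≤ Nat.log b (t + 1) := Nat.log_mono_right (Nat.le_succ t)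
  rcases Nat.eq_or_lt_of_le h1 with h | h
  · left; exact h.symm
  · right
    have h2 : b ^ Nat.log b (t + 1) ≤ t + 1 := Nat.pow_log_le_self b (by omega)
    have h3 : t < b ^ (Nat.log b t + 1) := Nat.lt_pow_succ_log_self hb t
    have h4 : b ^ (Nat.log b t + 1) ≤ b ^ Nat.log b (t + 1) :=
      Nat.pow_le_pow_right (by omega) (by omega)
    have h5 : t + 1 = b ^ Nat.log b (t + 1) := by omega
    refine ⟨?_, h5⟩
    by_contra h6
    have h7 : b ^ (Nat.log b t + 2) ≤ b ^ Nat.log b (t + 1) :=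
      Nat.pow_le_pow_right (by omega) (by omega)
    have h8 : b ^ (Nat.log b t + 1) < b ^ (Nat.log b t + 2) :=
      Nat.pow_lt_pow_right hb (by omega)
    omega

lemma mem_fac {m : ℕ} (h : ∃ i j k : ℕ, m = 2 ^ i * 3 ^ j * 5 ^ k) :
    m ∈ Nat.factoredNumbers {2, 3, 5} := by
  obtain ⟨i, j, k, rfl⟩ := h
  have h2 : (2 : ℕ) ∈ Nat.factoredNumbers {2, 3, 5} := by
    rw [Nat.mem_factoredNumbers']
    intro p hp hd
    have := (Nat.prime_dvd_prime_iff_eq hp Nat.prime_two).mp hd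
    simp [this]
  have h3 : (3 : ℕ) ∈ Nat.factoredNumbers {2, 3, 5} := by
    rw [Nat.mem_factoredNumbers']
    intro p hp hd
    have := (Nat.prime_dvd_prime_iff_eq hp Nat.prime_three).mp hd
    simp [this]
  have h5 : (5 : ℕ) ∈ Nat.factoredNumbers {2, 3, 5} := by
    rw [Nat.mem_factoredNumbers']
    intro p hp hd
    have := (Nat.prime_dvd_prime_iff_eq hp Nat.prime_five).mp hd
    simp [this]
  have hp : ∀ m ∈ Nat.factoredNumbers {2, 3, 5}, ∀ i : ℕ, m ^ i ∈ Nat.factoredNumbers {2, 3, 5} := by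
    intro m hm i
    rw [Nat.mem_factoredNumbers'] at hm ⊢
    intro p hp hd
    exact hm p hp (hp.dvd_of_dvd_pow hd)
  exact Nat.mul_mem_factoredNumbers (Nat.mul_mem_factoredNumbers (hp 2 h2 i) (hp 3 h3 j)) (hp 5 h5 k)

lemma pow3_le_log {t : ℕ} (h : 9 ≤ t) : 2 ≤ Nat.log 3 t :=
  (Nat.le_log_iff_pow_le (by norm_num) (by omega)).mpr (by norm_num; exact h)

lemma bad_ge {t : ℕ} (h : Bad t) : 9 ≤ t := by
  by_contra hc
  obtain ⟨h1, h2, h3, h4⟩ := h
  have : t < 9 := by omega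
  have h0 : 1 ≤ t := by
    rcases Nat.eq_zero_or_pos t with h0 | h0
    · subst h0; simp at h1
    · exact h0
  rcases Nat.lt_or_ge t 3 with h5 | h5
  · have : Nat.log 3 t = 0 := Nat.log_of_lt h5
    rw [this] at h1 h2
    omega
  · have : Nat.log 3 t = 1 := (Nat.log_eq_iff (Or.inr ⟨by norm_num, by omega⟩)).mpr (by
      constructor <;> omega)
    rw [this] at h1 h2
    omega

/-- `G` only changes at numbers of the form `2 ^ i * 3 ^ j * 5 ^ k` -/
lemma G_step (t : ℕ) (ht : 1 ≤ t) (h : t + 1 ∉ Nat.factoredNumbers {2, 3, 5}) : G (t + 1) = G t := by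
  have h3 : Nat.log 3 (t + 1) = Nat.log 3 t := by
    rcases log_succ_cases 3 t (by norm_num) ht with h1 | ⟨-, h1⟩
    · exact h1
    · exact absurd (mem_fac ⟨0, Nat.log 3 (t + 1), 0, by simpa using h1⟩) h
  have h2 : Nat.log 2 (t + 1) = Nat.log 2 t := by
    rcases log_succ_cases 2 t (by norm_num) ht with h1 | ⟨-, h1⟩
    · exact h1
    · exact absurd (mem_fac ⟨Nat.log 2 (t + 1), 0, 0, by simpa using h1⟩) h
  have hb : 2 * 3 ^ Nat.log 3 t ≤ t + 1 ↔ 2 * 3 ^ Nat.log 3 t ≤ t := by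
    constructor
    · intro h4
      by_contra h5
      exact absurd (mem_fac ⟨1, Nat.log 3 t, 0, by simp; omega⟩) h
    · intro h4; omega
  have hbad : Bad (t + 1) ↔ Bad t := by
    rcases Nat.lt_or_ge t 8 with h8 | h8
    · constructor
      · intro hh; have := bad_ge hh; omega
      · intro hh; have := bad_ge hh; omega
    have hJ : 2 ≤ Nat.log 3 t := by
      rw [← h3]; exact pow3_le_log (by omega)
    obtain ⟨J, hJ'⟩ := Nat.exists_eq_add_of_le hJ
    have hI : 2 ≤ Nat.log 2 t :=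
      (Nat.le_log_iff_pow_le (by norm_num) (by omega)).mpr (by norm_num; omega)
    obtain ⟨I, hI'⟩ := Nat.exists_eq_add_of_le hI
    have p3 : 3 ^ (2 + J) = 9 * 3 ^ J := by rw [pow_add]; norm_num
    have p2 : 2 ^ (2 + I) = 4 * 2 ^ I := by rw [pow_add]; norm_num
    have c1 : t + 1 ≠ 10 * 3 ^ J := fun e => h (mem_fac ⟨1, J, 1, by rw [e]; ring⟩)
    have c2 : t + 1 ≠ 12 * 3 ^ J := fun e => h (mem_fac ⟨2, J + 1, 0, by rw [e]; ring⟩)
    have c3 : t + 1 ≠ 5 * 2 ^ I := fun e => h (mem_fac ⟨I, 0, 1, by rw [e]; ring⟩)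
    unfold Bad
    rw [h3, h2, hJ', hI', p3, p2]
    constructor
    · rintro ⟨e1, e2, e3, e4⟩
      exact ⟨by omega, by omega, e3, by omega⟩
    · rintro ⟨e1, e2, e3, e4⟩
      exact ⟨by omega, by omega, e3, by omega⟩
  unfold G gg
  rw [h3, h2]
  simp only [hb, hbad]

lemma G_step_le (t : ℕ) (ht : 1 ≤ t) : |(G (t + 1) : ℝ) - G t| ≤ 3 := by
  have h3 : Nat.log 3 (t + 1) = Nat.log 3 t ∨ Nat.log 3 (t + 1) = Nat.log 3 t + 1 := by
    rcases log_succ_cases 3 t (by norm_num) ht with h1 | ⟨h1, -⟩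
    · left; exact h1
    · right; exact h1
  have h2 : Nat.log 2 (t + 1) = Nat.log 2 t ∨ Nat.log 2 (t + 1) = Nat.log 2 t + 1 := by
    rcases log_succ_cases 2 t (by norm_num) ht with h1 | ⟨h1, -⟩
    · left; exact h1
    · right; exact h1
  have h4 : G (t + 1) ≤ G t + 3 ∧ G t ≤ G (t + 1) + 3 := by
    unfold G gg
    split_ifs <;> omega
  obtain ⟨h5, h6⟩ := h4
  have h5' : (G (t + 1) : ℝ) ≤ G t + 3 := by exact_mod_cast h5
  have h6' : (G t : ℝ) ≤ G (t + 1) + 3 := by exact_mod_cast h6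
  rw [abs_le]
  constructor <;> linarith

/-- `G`, with value 0 at 0 -/
noncomputable def G0 (t : ℕ) : ℝ := if t = 0 then 0 else (G t : ℝ)

lemma G0_succ (t : ℕ) : G0 (t + 1) = G (t + 1) := by simp [G0]

lemma G_one : G 1 = 1 := by decide

lemma summable_steps : Summable fun i : ℕ => |G0 (i + 1) - G0 i| / ((i : ℝ) + 1) := by
  have s1 := (summable_nat_add_iff 1).mpr ((summable_factored {2, 3, 5}).mul_left 3)
  refine Summable.of_nonneg_of_le (fun i => by positivity) ?_ s1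
  intro i
  rcases Nat.eq_zero_or_pos i with h0 | h0
  · subst h0
    have h1 : (0 + 1 : ℕ) ∈ Nat.factoredNumbers {2, 3, 5} := mem_fac ⟨0, 0, 0, rfl⟩
    rw [if_pos h1]
    simp only [G0]
    simp [G_one]
  · by_cases h : i + 1 ∈ Nat.factoredNumbers {2, 3, 5}
    · rw [if_pos h]
      have h1 : G0 i = G i := by simp [G0, show i ≠ 0 by omega]
      rw [G0_succ, h1]
      have := G_step_le i h0
      push_cast
      rw [mul_one_div]
      gcongr
    · rw [if_neg h]
      have h1 : G0 i = G i := by simp [G0, show i ≠ 0 by omega]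
      rw [G0_succ, h1, G_step i h0 h]
      simp

lemma G_le_log (t : ℕ) (ht : 1 ≤ t) : G t ≤ 2 * Nat.log 2 t + 2 := by
  have h1 : Nat.log 3 t ≤ Nat.log 2 t := Nat.log_anti_left (by norm_num) (by norm_num)
  unfold G gg
  split_ifs <;> omega

/-- the constant -/
noncomputable def cc : ℝ := (1 / 3) * ∑' i : ℕ, (G0 (i + 1) - G0 i) / ((i : ℝ) + 1)

lemma limit_sum : Tendsto (fun n : ℕ => ((∑ a ∈ Cop n, G (n / a) : ℕ) : ℝ) / (n : ℝ)) atTop (𝓝 cc) := by
  have h := avg_tendsto 6 (by norm_num) G0 (by simp [G0]) summable_steps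
  have e : ((Nat.totient 6 : ℕ) : ℝ) / ((6 : ℕ) : ℝ) = 1 / 3 := by
    have : Nat.totient 6 = 2 := by decide
    rw [this]; norm_num
  rw [e] at h
  refine h.congr ?_
  intro n
  congr 1
  push_cast
  apply Finset.sum_congr rfl
  intro a ha
  unfold Cop at ha
  rw [mem_filter, mem_Icc] at ha
  have h1 : 1 ≤ n / a := (Nat.one_le_div_iff (by omega)).mpr ha.1.2
  simp [G0, show n / a ≠ 0 by omega]

end Pool.Agent.Helper90.NTM
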