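import Mathlib
import Pool.Agent.Helper90.NTM.Steps

/-!
# Numerical value of the constant
-/

open Finset Filter Topology

namespace Pool.Agent.Helper90.NTM

/-- the limit of `f n / n` -/
noncomputable def lam : ℝ := (1 / 3) * ∑' i : ℕ, (G (i + 1) : ℝ) / (((i : ℝ) + 1) * ((i : ℝ) + 2))

lemma partial_eq (N : ℕ) : ∑ i ∈ range N, (G (i + 1) : ℝ) / (((i : ℝ) + 1) * ((i : ℝ) + 2)) =
    ∑ i ∈ range N, (G0 (i + 1) - G0 i) / ((i : ℝ) + 1) - G0 N / ((N : ℝ) + 1) := by
  induction N with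
  | zero => simp [G0]
  | succ N ih =>
    rw [sum_range_succ, sum_range_succ, ih, ← G0_succ]
    have h1 : (N : ℝ) + 1 ≠ 0 := by positivity
    have h2 : (N : ℝ) + 2 ≠ 0 := by positivity
    push_cast
    rw [show (N : ℝ) + 1 + 1 = (N : ℝ) + 2 by ring]
    field_simp
    ring

lemma G0_div_tendsto : Tendsto (fun N : ℕ => G0 N / ((N : ℝ) + 1)) atTop (𝓝 0) := by
  have h1 : Tendsto (fun N : ℕ => (2 * Real.log N / Real.log 2 + 2) / (N : ℝ)) atTop (𝓝 0) := by
    have h2 : Tendsto (fun x : ℝ => Real.log x / x) atTop (𝓝 0) := by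
      have := Real.isLittleO_log_id_atTop.tendsto_div_nhds_zero
      simpa using this
    have h3 := (h2.comp tendsto_natCast_atTop_atTop).const_mul (2 / Real.log 2)
    have h4 : Tendsto (fun N : ℕ => (2 : ℝ) / (N : ℝ)) atTop (𝓝 0) :=
      tendsto_const_div_atTop_nhds_zero_nat 2
    have h5 := h3.add h4
    simp only [mul_zero, add_zero] at h5
    refine h5.congr (fun N => ?_)
    simp only [Function.comp_apply]
    ring
  refine squeeze_zero' (Eventually.of_forall fun N => ?_) ?_ h1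
  · unfold G0; split_ifs <;> positivity
  · filter_upwards [eventually_ge_atTop 1] with N hN
    have h2 : G0 N = G N := by simp [G0, show N ≠ 0 by omega]
    rw [h2]
    have h3 : (G N : ℝ) ≤ 2 * (Nat.log 2 N : ℝ) + 2 := by exact_mod_cast G_le_log N hN
    have h4 : (Nat.log 2 N : ℝ) ≤ Real.log N / Real.log 2 := by
      rw [le_div_iff₀ (Real.log_pos (by norm_num)), ← Real.log_pow]
      apply Real.log_le_log (by positivity)
      exact_mod_cast Nat.pow_log_le_self 2 (by omega)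
    have h5 : (0 : ℝ) < N := by exact_mod_cast hN
    have h6 : (0 : ℝ) ≤ 2 * Real.log N / Real.log 2 + 2 := by
      have : 0 ≤ Real.log N := Real.log_nonneg (by exact_mod_cast hN)
      have : 0 < Real.log 2 := Real.log_pos (by norm_num)
      positivity
    calc (G N : ℝ) / ((N : ℝ) + 1) ≤ (2 * Real.log N / Real.log 2 + 2) / ((N : ℝ) + 1) := by
          gcongr
          calc (G N : ℝ) ≤ 2 * (Nat.log 2 N : ℝ) + 2 := h3
            _ ≤ 2 * (Real.log N / Real.log 2) + 2 := by linarith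
            _ = _ := by ring
      _ ≤ _ := by
          apply div_le_div_of_nonneg_left h6 h5
          linarith

lemma hasSum_lam : HasSum (fun i : ℕ => (G (i + 1) : ℝ) / (((i : ℝ) + 1) * ((i : ℝ) + 2)))
    (3 * cc) := by
  rw [hasSum_iff_tendsto_nat_of_nonneg (fun i => by positivity)]
  have hs : Summable fun i : ℕ => (G0 (i + 1) - G0 i) / ((i : ℝ) + 1) := by
    apply Summable.of_norm
    refine summable_steps.congr (fun i => ?_)
    rw [norm_div, Real.norm_eq_abs, Real.norm_eq_abs, abs_of_pos (show (0 : ℝ) < i + 1 by positivity)]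
  have h1 := hs.hasSum.tendsto_sum_nat
  have h2 := h1.sub G0_div_tendsto
  have e : 3 * cc = ∑' i : ℕ, (G0 (i + 1) - G0 i) / ((i : ℝ) + 1) - 0 := by
    unfold cc; ring
  rw [e]
  refine h2.congr (fun N => ?_)
  rw [partial_eq]

lemma lam_eq : lam = cc := by
  unfold lam
  rw [hasSum_lam.tsum_eq]
  ring

/-! ### the value -/

/-- value of a row -/
def rowG (J I b d : ℕ) : ℕ := J + 1 + (I + b) / 2 - d

def rowOk (s s' J I b d : ℕ) : Bool :=
  decide (s < s') && decide (3 ^ J ≤ s) && decide (s' ≤ 3 ^ (J + 1)) && decide (2 ^ I ≤ s) &&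
  decide (s' ≤ 2 ^ (I + 1)) &&
  (if b = 1 then decide (2 * 3 ^ J ≤ s) else decide (b = 0 ∧ s' ≤ 2 * 3 ^ J)) &&
  (if d = 1 then decide (10 * 3 ^ J ≤ 9 * s ∧ 3 * (s' - 1) < 4 * 3 ^ J ∧ I % 2 = 0 ∧
      4 * (s' - 1) < 5 * 2 ^ I)
    else decide (d = 0 ∧ (9 * (s' - 1) < 10 * 3 ^ J ∨ 4 * 3 ^ J ≤ 3 * s ∨ I % 2 = 1 ∨
      5 * 2 ^ I ≤ 4 * s)))

lemma rowOk_spec {s s' J I b d t : ℕ} (h : rowOk s s' J I b d = true) (h1 : s ≤ t) (h2 : t < s') :
    G t = rowG J I b d := by
  unfold rowOk at h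
  simp only [Bool.and_eq_true, decide_eq_true_eq] at h
  obtain ⟨⟨⟨⟨⟨⟨k1, k2⟩, k3⟩, k4⟩, k5⟩, k6⟩, k7⟩ := h
  have hJ : Nat.log 3 t = J :=
    (Nat.log_eq_iff (Or.inr ⟨by norm_num, by have := Nat.one_le_pow J 3 (by norm_num); omega⟩)).mpr
      ⟨by omega, by omega⟩
  have hI : Nat.log 2 t = I :=
    (Nat.log_eq_iff (Or.inr ⟨by norm_num, by have := Nat.one_le_pow J 3 (by norm_num); omega⟩)).mpr
      ⟨by omega, by omega⟩
  have hb : (if 2 * 3 ^ J ≤ t then 1 else 0) = b := by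
    split_ifs at k6 with hb
    · rw [decide_eq_true_eq] at k6
      rw [if_pos (by omega)]; exact hb.symm
    · rw [decide_eq_true_eq] at k6
      rw [if_neg (by omega)]; exact k6.1.symm
  have hd : (if Bad t then 1 else 0) = d := by
    split_ifs at k7 with hd
    · rw [decide_eq_true_eq] at k7
      rw [if_pos]
      · exact hd.symm
      · unfold Bad
        rw [hJ, hI]
        obtain ⟨e1, e2, e3, e4⟩ := k7
        exact ⟨by omega, by omega, e3, by omega⟩
    · rw [decide_eq_true_eq] at k7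
      rw [if_neg]
      · exact k7.1.symm
      · unfold Bad
        rw [hJ, hI]
        obtain ⟨e0, e⟩ := k7
        rintro ⟨e1, e2, e3, e4⟩
        omega
  unfold G gg rowG
  rw [hJ, hI, hb, hd]

/-- check of a list of rows `(s', J, I, b, d)` starting at `s` and ending at `T` -/
def chk (T : ℕ) : ℕ → List (ℕ × ℕ × ℕ × ℕ × ℕ) → Bool
  | s, [] => decide (s = T)
  | s, (s', J, I, b, d) :: l => rowOk s s' J I b d && chk T s' l

/-- the sum of the rows -/
def val : ℕ → List (ℕ × ℕ × ℕ × ℕ × ℕ) → ℚ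
  | _, [] => 0
  | s, (s', J, I, b, d) :: l => (rowG J I b d : ℚ) * (1 / s - 1 / s') + val s' l

lemma sum_block (s s' : ℕ) (hs : 1 ≤ s) (h : s ≤ s') :
    ∑ t ∈ Ico s s', (1 : ℝ) / ((t : ℝ) * ((t : ℝ) + 1)) = 1 / s - 1 / s' := by
  induction s', h using Nat.le_induction with
  | base => simp
  | succ m hm ih =>
    rw [sum_Ico_succ_top hm, ih]
    have h1 : (m : ℝ) ≠ 0 := by
      have : m ≠ 0 := by omega
      exact_mod_cast this
    have h2 : (m : ℝ) + 1 ≠ 0 := by positivity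
    push_cast
    field_simp
    ring

lemma chk_le {T : ℕ} : ∀ (l : List (ℕ × ℕ × ℕ × ℕ × ℕ)) (s : ℕ), chk T s l = true → s ≤ T := by
  intro l
  induction l with
  | nil => intro s h; simp only [chk, decide_eq_true_eq] at h; omega
  | cons r l ih =>
    obtain ⟨s', J, I, b, d⟩ := r
    intro s h
    simp only [chk, Bool.and_eq_true] at h
    have h1 := ih s' h.2
    have h2 : s < s' := by
      have := h.1
      unfold rowOk at this
      simp only [Bool.and_eq_true, decide_eq_true_eq] at this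
      exact this.1.1.1.1.1.1
    omega

lemma chk_spec {T : ℕ} : ∀ (l : List (ℕ × ℕ × ℕ × ℕ × ℕ)) (s : ℕ), 1 ≤ s → chk T s l = true →
    ∑ t ∈ Ico s T, (G t : ℝ) / ((t : ℝ) * ((t : ℝ) + 1)) = (val s l : ℝ) := by
  intro l
  induction l with
  | nil =>
    intro s hs h
    simp only [chk, decide_eq_true_eq] at h
    subst h
    simp [val]
  | cons r l ih =>
    obtain ⟨s', J, I, b, d⟩ := r
    intro s hs h
    simp only [chk, Bool.and_eq_true] at h
    have h2 : s < s' := by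
      have := h.1
      unfold rowOk at this
      simp only [Bool.and_eq_true, decide_eq_true_eq] at this
      exact this.1.1.1.1.1.1
    have h3 := chk_le l s' h.2
    rw [← sum_Ico_consecutive _ h2.le h3, ih s' (by omega) h.2]
    have h4 : ∑ t ∈ Ico s s', (G t : ℝ) / ((t : ℝ) * ((t : ℝ) + 1)) =
        (rowG J I b d : ℝ) * ∑ t ∈ Ico s s', (1 : ℝ) / ((t : ℝ) * ((t : ℝ) + 1)) := by
      rw [mul_sum]
      apply sum_congr rfl
      intro t ht
      rw [mem_Ico] at ht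
      rw [rowOk_spec h.1 ht.1 ht.2, mul_one_div]
    rw [h4, sum_block s s' hs h2.le]
    simp only [val]
    push_cast
    ring

/-- the rows up to `2 ^ 70` -/
def rows : List (ℕ × ℕ × ℕ × ℕ × ℕ) :=
  [
    (2, 0, 0, 0, 0), (3, 0, 1, 1, 0), (4, 1, 1, 0, 0), (6, 1, 2, 0, 0), (8, 1, 2, 1, 0),
    (9, 1, 3, 1, 0), (16, 2, 3, 0, 0), (18, 2, 4, 0, 0), (27, 2, 4, 1, 0), (32, 3, 4, 0, 0),
    (54, 3, 5, 0, 0), (64, 3, 5, 1, 0), (81, 3, 6, 1, 0), (128, 4, 6, 0, 0), (162, 4, 7, 0, 0),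
    (243, 4, 7, 1, 0), (256, 5, 7, 0, 0), (270, 5, 8, 0, 0), (320, 5, 8, 0, 1),
    (486, 5, 8, 0, 0), (512, 5, 8, 1, 0), (729, 5, 9, 1, 0), (1024, 6, 9, 0, 0),
    (1458, 6, 10, 0, 0), (2048, 6, 10, 1, 0), (2187, 6, 11, 1, 0), (4096, 7, 11, 0, 0),
    (4374, 7, 12, 0, 0), (6561, 7, 12, 1, 0), (8192, 8, 12, 0, 0), (13122, 8, 13, 0, 0),
    (16384, 8, 13, 1, 0), (19683, 8, 14, 1, 0), (21870, 9, 14, 0, 0), (32768, 9, 14, 0, 0),
    (39366, 9, 15, 0, 0), (59049, 9, 15, 1, 0), (65536, 10, 15, 0, 0), (65610, 10, 16, 0, 0),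
    (78732, 10, 16, 0, 1), (118098, 10, 16, 0, 0), (131072, 10, 16, 1, 0),
    (177147, 10, 17, 1, 0), (262144, 11, 17, 0, 0), (354294, 11, 18, 0, 0),
    (524288, 11, 18, 1, 0), (531441, 11, 19, 1, 0), (1048576, 12, 19, 0, 0),
    (1062882, 12, 20, 0, 0), (1594323, 12, 20, 1, 0), (2097152, 13, 20, 0, 0),
    (3188646, 13, 21, 0, 0), (4194304, 13, 21, 1, 0), (4782969, 13, 22, 1, 0),
    (5314410, 14, 22, 0, 0), (8388608, 14, 22, 0, 0), (9565938, 14, 23, 0, 0),
    (14348907, 14, 23, 1, 0), (16777216, 15, 23, 0, 0), (19131876, 15, 24, 0, 1),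
    (28697814, 15, 24, 0, 0), (33554432, 15, 24, 1, 0), (43046721, 15, 25, 1, 0),
    (67108864, 16, 25, 0, 0), (86093442, 16, 26, 0, 0), (129140163, 16, 26, 1, 0),
    (134217728, 17, 26, 0, 0), (258280326, 17, 27, 0, 0), (268435456, 17, 27, 1, 0),
    (387420489, 17, 28, 1, 0), (536870912, 18, 28, 0, 0), (774840978, 18, 29, 0, 0),
    (1073741824, 18, 29, 1, 0), (1162261467, 18, 30, 1, 0), (1291401630, 19, 30, 0, 0),
    (1342177280, 19, 30, 0, 1), (2147483648, 19, 30, 0, 0), (2324522934, 19, 31, 0, 0),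
    (3486784401, 19, 31, 1, 0), (4294967296, 20, 31, 0, 0), (4649045868, 20, 32, 0, 1),
    (6973568802, 20, 32, 0, 0), (8589934592, 20, 32, 1, 0), (10460353203, 20, 33, 1, 0),
    (17179869184, 21, 33, 0, 0), (20920706406, 21, 34, 0, 0), (31381059609, 21, 34, 1, 0),
    (34359738368, 22, 34, 0, 0), (62762119218, 22, 35, 0, 0), (68719476736, 22, 35, 1, 0),
    (94143178827, 22, 36, 1, 0), (137438953472, 23, 36, 0, 0), (188286357654, 23, 37, 0, 0),
    (274877906944, 23, 37, 1, 0), (282429536481, 23, 38, 1, 0), (313810596090, 24, 38, 0, 0),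
    (343597383680, 24, 38, 0, 1), (549755813888, 24, 38, 0, 0), (564859072962, 24, 39, 0, 0),
    (847288609443, 24, 39, 1, 0), (1099511627776, 25, 39, 0, 0), (1129718145924, 25, 40, 0, 1),
    (1694577218886, 25, 40, 0, 0), (2199023255552, 25, 40, 1, 0), (2541865828329, 25, 41, 1, 0),
    (4398046511104, 26, 41, 0, 0), (5083731656658, 26, 42, 0, 0), (7625597484987, 26, 42, 1, 0),
    (8796093022208, 27, 42, 0, 0), (15251194969974, 27, 43, 0, 0),
    (17592186044416, 27, 43, 1, 0), (22876792454961, 27, 44, 1, 0),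
    (35184372088832, 28, 44, 0, 0), (45753584909922, 28, 45, 0, 0),
    (68630377364883, 28, 45, 1, 0), (70368744177664, 29, 45, 0, 0),
    (76255974849870, 29, 46, 0, 0), (87960930222080, 29, 46, 0, 1),
    (137260754729766, 29, 46, 0, 0), (140737488355328, 29, 46, 1, 0),
    (205891132094649, 29, 47, 1, 0), (281474976710656, 30, 47, 0, 0),
    (411782264189298, 30, 48, 0, 0), (562949953421312, 30, 48, 1, 0),
    (617673396283947, 30, 49, 1, 0), (1125899906842624, 31, 49, 0, 0),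
    (1235346792567894, 31, 50, 0, 0), (1853020188851841, 31, 50, 1, 0),
    (2251799813685248, 32, 50, 0, 0), (3706040377703682, 32, 51, 0, 0),
    (4503599627370496, 32, 51, 1, 0), (5559060566555523, 32, 52, 1, 0),
    (6176733962839470, 33, 52, 0, 0), (9007199254740992, 33, 52, 0, 0),
    (11118121133111046, 33, 53, 0, 0), (16677181699666569, 33, 53, 1, 0),
    (18014398509481984, 34, 53, 0, 0), (18530201888518410, 34, 54, 0, 0),
    (22236242266222092, 34, 54, 0, 1), (33354363399333138, 34, 54, 0, 0),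
    (36028797018963968, 34, 54, 1, 0), (50031545098999707, 34, 55, 1, 0),
    (72057594037927936, 35, 55, 0, 0), (100063090197999414, 35, 56, 0, 0),
    (144115188075855872, 35, 56, 1, 0), (150094635296999121, 35, 57, 1, 0),
    (288230376151711744, 36, 57, 0, 0), (300189270593998242, 36, 58, 0, 0),
    (450283905890997363, 36, 58, 1, 0), (576460752303423488, 37, 58, 0, 0),
    (900567811781994726, 37, 59, 0, 0), (1152921504606846976, 37, 59, 1, 0),
    (1350851717672992089, 37, 60, 1, 0), (1500946352969991210, 38, 60, 0, 0),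
    (2305843009213693952, 38, 60, 0, 0), (2701703435345984178, 38, 61, 0, 0),
    (4052555153018976267, 38, 61, 1, 0), (4611686018427387904, 39, 61, 0, 0),
    (5403406870691968356, 39, 62, 0, 1), (8105110306037952534, 39, 62, 0, 0),
    (9223372036854775808, 39, 62, 1, 0), (12157665459056928801, 39, 63, 1, 0),
    (18446744073709551616, 40, 63, 0, 0), (24315330918113857602, 40, 64, 0, 0),
    (36472996377170786403, 40, 64, 1, 0), (36893488147419103232, 41, 64, 0, 0),
    (72945992754341572806, 41, 65, 0, 0), (73786976294838206464, 41, 65, 1, 0),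
    (109418989131512359209, 41, 66, 1, 0), (147573952589676412928, 42, 66, 0, 0),
    (218837978263024718418, 42, 67, 0, 0), (295147905179352825856, 42, 67, 1, 0),
    (328256967394537077627, 42, 68, 1, 0), (364729963771707864030, 43, 68, 0, 0),
    (368934881474191032320, 43, 68, 0, 1), (590295810358705651712, 43, 68, 0, 0),
    (656513934789074155254, 43, 69, 0, 0), (984770902183611232881, 43, 69, 1, 0),
    (1180591620717411303424, 44, 69, 0, 0)
  ]

lemma rows_chk : chk (2 ^ 70) 1 rows = true := by decide +kernel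

lemma rows_lo : (672965651199489347 : ℚ) / 10 ^ 18 * 3 < val 1 rows := by decide +kernel

lemma rows_hi : val 1 rows + 72 / 2 ^ 69 < (672965651199489348 : ℚ) / 10 ^ 18 * 3 := by decide +kernel

lemma range_eq (N : ℕ) : ∑ i ∈ range N, (G (i + 1) : ℝ) / (((i : ℝ) + 1) * ((i : ℝ) + 2)) =
    ∑ t ∈ Ico 1 (N + 1), (G t : ℝ) / ((t : ℝ) * ((t : ℝ) + 1)) := by
  rw [sum_Ico_eq_sum_range]
  apply sum_congr rfl
  intro i hi
  rw [add_comm 1 i]
  push_cast
  rw [show (i : ℝ) + 1 + 1 = (i : ℝ) + 2 by ring]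

lemma block_le (m : ℕ) : ∑ t ∈ Ico 1 (2 ^ (m + 1)), (G t : ℝ) / ((t : ℝ) * ((t : ℝ) + 1)) ≤
    ∑ t ∈ Ico 1 (2 ^ m), (G t : ℝ) / ((t : ℝ) * ((t : ℝ) + 1)) + ((m : ℝ) + 1) / 2 ^ m := by
  have h1 : 1 ≤ 2 ^ m := Nat.one_le_two_pow
  have h2 : 2 ^ m ≤ 2 ^ (m + 1) := Nat.pow_le_pow_right (by norm_num) (by omega)
  rw [← sum_Ico_consecutive _ h1 h2]
  have h3 : ∑ t ∈ Ico (2 ^ m) (2 ^ (m + 1)), (G t : ℝ) / ((t : ℝ) * ((t : ℝ) + 1)) ≤
      (2 * (m : ℝ) + 2) * ∑ t ∈ (Ico (2 ^ m) (2 ^ (m + 1)) : Finset ℕ), (1 : ℝ) / ((t : ℝ) * ((t : ℝ) + 1)) := by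
    rw [mul_sum]
    apply sum_le_sum
    intro t ht
    rw [mem_Ico] at ht
    have h4 : Nat.log 2 t = m :=
      (Nat.log_eq_iff (Or.inr ⟨by norm_num, by omega⟩)).mpr ht
    have h5 := G_le_log t (by omega)
    rw [h4] at h5
    have h6 : (G t : ℝ) ≤ 2 * m + 2 := by exact_mod_cast h5
    rw [mul_one_div]
    gcongr
  rw [sum_block _ _ h1 h2] at h3
  have h7 : (2 * (m : ℝ) + 2) * (1 / ((2 ^ m : ℕ) : ℝ) - 1 / ((2 ^ (m + 1) : ℕ) : ℝ)) =
      ((m : ℝ) + 1) / 2 ^ m := by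
    push_cast
    rw [pow_succ]
    field_simp
    ring
  rw [h7] at h3
  linarith

lemma tail_le (m : ℕ) (hm : 70 ≤ m) :
    ∑ t ∈ Ico 1 (2 ^ m), (G t : ℝ) / ((t : ℝ) * ((t : ℝ) + 1)) + 2 * ((m : ℝ) + 2) / 2 ^ m ≤
    ∑ t ∈ Ico 1 (2 ^ 70), (G t : ℝ) / ((t : ℝ) * ((t : ℝ) + 1)) + 72 / 2 ^ 69 := by
  induction m, hm using Nat.le_induction with
  | base =>
    apply le_of_eq
    norm_num
  | succ m hm ih =>
    have h1 := block_le m
    have h2 : 2 * (((m + 1 : ℕ) : ℝ) + 2) / 2 ^ (m + 1) + ((m : ℝ) + 1) / 2 ^ m =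
        2 * ((m : ℝ) + 2) / 2 ^ m := by
      push_cast
      rw [pow_succ]
      field_simp
      ring
    linarith

theorem lam_bounds : 0.672965651199489347 < lam ∧ lam < 0.672965651199489348 := by
  have hv := chk_spec rows 1 le_rfl rows_chk
  have hlo : ((672965651199489347 : ℝ) / 10 ^ 18 * 3) < (val 1 rows : ℝ) := by
    have := rows_lo
    have h : (((672965651199489347 : ℚ) / 10 ^ 18 * 3 : ℚ) : ℝ) < ((val 1 rows : ℚ) : ℝ) := by
      exact_mod_cast this
    push_cast at h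
    exact h
  have hhi : (val 1 rows : ℝ) + 72 / 2 ^ 69 < ((672965651199489348 : ℝ) / 10 ^ 18 * 3) := by
    have := rows_hi
    have h : (((val 1 rows + 72 / 2 ^ 69 : ℚ)) : ℝ) < (((672965651199489348 : ℚ) / 10 ^ 18 * 3 : ℚ) : ℝ) := by
      exact_mod_cast this
    push_cast at h
    exact h
  have e : lam = cc := lam_eq
  have h1 : ∑ t ∈ Ico 1 (2 ^ 70), (G t : ℝ) / ((t : ℝ) * ((t : ℝ) + 1)) ≤ 3 * cc := by
    have := sum_le_hasSum (range (2 ^ 70 - 1)) (fun i _ => by positivity) hasSum_lam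
    rw [range_eq] at this
    exact this
  have h2 : 3 * cc ≤ ∑ t ∈ Ico 1 (2 ^ 70), (G t : ℝ) / ((t : ℝ) * ((t : ℝ) + 1)) + 72 / 2 ^ 69 := by
    have h3 := (hasSum_lam.tendsto_sum_nat).comp
      (tendsto_atTop_mono (fun m : ℕ => (by
        have := Nat.lt_two_pow_self (n := m)
        omega : m ≤ 2 ^ m - 1)) tendsto_id : Tendsto (fun m : ℕ => 2 ^ m - 1) atTop atTop)
    refine le_of_tendsto h3 ?_
    filter_upwards [eventually_ge_atTop 70] with m hm
    have h4 := tail_le m hm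
    simp only [Function.comp_apply]
    rw [range_eq, Nat.sub_add_cancel Nat.one_le_two_pow]
    have : (0 : ℝ) ≤ 2 * ((m : ℝ) + 2) / 2 ^ m := by positivity
    linarith
  rw [e]
  rw [hv] at h1 h2
  constructor
  · norm_num at hlo ⊢
    linarith
  · norm_num at hhi h2 ⊢
    linarith

end Pool.Agent.Helper90.NTM
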