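import Mathlib
import Pool.Agent.Helper90.NTM.Bridge
import Pool.Agent.Helper90.NTM.Num
import Pool.Agent.Helper40.NTM.Lower

/-!
# The exact formula
-/

open Finset Filter Topology
open Pool.Agent.Helper90.NoTwoMultiples

namespace Pool.Agent.Helper90.NTM

theorem exact_of_lower
    (hlow : ∀ n : ℕ, ∑ m ∈ (Icc 1 n).filter (fun m => Nat.Coprime 6 m),
      Pool.Agent.Helper40.NTM.hh (n / m) ≤ f n + ((Icc 1 n).filter
        (fun m => Nat.Coprime 6 m ∧ Pool.Agent.Helper40.NTM.InD (n / m))).card) (n : ℕ) :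
    f n = ∑ a ∈ (Icc 1 n).filter (fun a => Nat.Coprime 6 a), G (n / a) := by
  apply le_antisymm
  · obtain ⟨A, hA, hA2, h3⟩ := exists_max (Icc 1 n)
    unfold f
    rw [← h3]
    exact upper hA hA2
  · have h1 := hlow n
    have h2 := sum_G n
    have h3 : ∑ m ∈ (Icc 1 n).filter (fun m => Nat.Coprime 6 m),
        Pool.Agent.Helper40.NTM.hh (n / m) = ∑ a ∈ Cop n, gg (n / a) := by
      apply sum_congr rfl
      intro a ha
      rw [mem_filter, mem_Icc] at ha
      exact hh_eq ((Nat.one_le_div_iff (by omega)).mpr ha.1.2)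
    have h4 : ((Icc 1 n).filter
        (fun m => Nat.Coprime 6 m ∧ Pool.Agent.Helper40.NTM.InD (n / m))).card =
        ((Cop n).filter (fun a => Bad (n / a))).card := by
      congr 1
      ext a
      rw [mem_filter, mem_filter, mem_Cop, mem_Icc, InD_iff]
      tauto
    rw [h3, h4] at h1
    change ∑ a ∈ Cop n, G (n / a) ≤ f n
    omega

theorem limit_of_exact
    (h : ∀ n : ℕ, f n = ∑ a ∈ (Icc 1 n).filter (fun a => Nat.Coprime 6 a), G (n / a)) :
    Tendsto (fun n : ℕ => (f n : ℝ) / n) atTop (𝓝 lam) := by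
  rw [lam_eq]
  refine limit_sum.congr (fun n => ?_)
  rw [h n]
  rfl

theorem exact (n : ℕ) :
    f n = ∑ a ∈ (Icc 1 n).filter (fun a => Nat.Coprime 6 a), G (n / a) :=
  exact_of_lower (fun n => Pool.Agent.Helper40.NTM.lower n) n

end Pool.Agent.Helper90.NTM
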